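import Mathlib

/-!
# MP_13ba09_nt : a further exceptional tuple for the families `z ^ d + t`

We show that `(2 t + 2, 1, 2, 2)` is an exceptional tuple, different from the two listed
ones `(-t, 1, 1, 2)` and `(t + 1, 1, 2, 2)`.
-/

set_option autoImplicit false

namespace Pool.Agent.Results.MP_13ba09_nt.AnotherExceptional

open Function

/-- `HasPortrait f y M N`: the point `y` has portrait `(M, N)` for `f`, that is, `f^M(y)` is
periodic of exact period `N ≥ 1`, and `M` is minimal with this property
(`M = 0` or `f^(M-1)(y)` is not periodic). -/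
def HasPortrait {α : Type*} (f : α → α) (y : α) (M N : ℕ) : Prop :=
  1 ≤ N ∧ f^[M + N] y = f^[M] y ∧ (∀ n, 0 < n → n < N → f^[M + n] y ≠ f^[M] y) ∧
    (M = 0 ∨ ∀ n, 0 < n → f^[M - 1 + n] y ≠ f^[M - 1] y)

/-- The map `z ↦ z ^ d + c` on the projective line `K ∪ {∞}` (with `∞ ↦ ∞`). -/
def phi {K : Type*} [Field K] (d : ℕ) (c : K) : OnePoint K → OnePoint K
  | none => none
  | some z => some (z ^ d + c)

/-- The reduction of `x ∈ K(t)` at the place `t = c`: the value `x(c)`, or `∞` at a pole. -/
noncomputable def reduction {K : Type*} [Field K] (x : RatFunc K) (c : K) : OnePoint K :=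
  letI := Classical.propDecidable (x.denom.eval c = 0)
  if x.denom.eval c = 0 then none else some (x.num.eval c / x.denom.eval c)

/-- `(x, M, N, d)` is exceptional: `x ∈ K(t)` is not constant, `N ≥ 1`, `d ≥ 2` and there is no
`c ∈ K` for which the reduction of `x` at `t = c` has portrait `(M, N)` for `z ^ d + c`. -/
def Exceptional {K : Type*} [Field K] (x : RatFunc K) (M N d : ℕ) : Prop :=
  (∀ a : K, x ≠ RatFunc.C a) ∧ 1 ≤ N ∧ 2 ≤ d ∧
    ∀ c : K, ¬ HasPortrait (phi d c) (reduction x c) M N

/-- For every algebraically closed field `K` of characteristic zero the tuple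
`(2 t + 2, 1, 2, 2)` is exceptional, and it is neither `(-t, 1, 1, 2)` nor `(t + 1, 1, 2, 2)`. -/
theorem result (K : Type*) [Field K] [IsAlgClosed K] [CharZero K] :
    Exceptional (2 * RatFunc.X + 2 : RatFunc K) 1 2 2 ∧
      ((2 * RatFunc.X + 2 : RatFunc K), 1, 2, 2) ≠ ((-RatFunc.X : RatFunc K), 1, 1, 2) ∧
      ((2 * RatFunc.X + 2 : RatFunc K), 1, 2, 2) ≠ ((RatFunc.X + 1 : RatFunc K), 1, 2, 2) := by
  have hpoly : (2 * RatFunc.X + 2 : RatFunc K) =
      algebraMap (Polynomial K) (RatFunc K) (Polynomial.C 2 * Polynomial.X + Polynomial.C 2) := by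
    rw [map_add, map_mul, RatFunc.algebraMap_X, RatFunc.algebraMap_C, map_ofNat]
  have hX1 : (RatFunc.X + 1 : RatFunc K) =
      algebraMap (Polynomial K) (RatFunc K) (Polynomial.X + Polynomial.C 1) := by
    rw [map_add, RatFunc.algebraMap_X, RatFunc.algebraMap_C]
    simp
  have h2 : (2 : K) ≠ 0 := two_ne_zero
  refine ⟨⟨?_, by norm_num, le_refl _, ?_⟩, by simp, ?_⟩
  · intro a h
    rw [hpoly, ← RatFunc.algebraMap_C] at h
    have h' := RatFunc.algebraMap_injective K h
    have := congrArg (fun p => Polynomial.coeff p 1) h'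
    simp only [Polynomial.coeff_add, Polynomial.coeff_C_mul, Polynomial.coeff_X_one,
      Polynomial.coeff_C, one_ne_zero, if_false, mul_one, add_zero] at this
    exact h2 this
  · intro c
    have hred : reduction (2 * RatFunc.X + 2 : RatFunc K) c = some (2 * c + 2) := by
      unfold reduction
      rw [hpoly, RatFunc.num_algebraMap, RatFunc.denom_algebraMap]
      simp
    rw [hred]
    rintro ⟨-, h1, h3, h4⟩
    have h3' := h3 1 one_pos (by norm_num)
    have h4' := (h4.resolve_left one_ne_zero) 2 (by norm_num)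
    simp only [Function.iterate_succ, Function.iterate_zero, Function.comp, id, phi,
      Nat.sub_self, Nat.zero_add] at h1 h3' h4'
    have e1 : (((2 * c + 2) ^ 2 + c) ^ 2 + c) ^ 2 + c = (2 * c + 2) ^ 2 + c := by
      exact Option.some.inj h1
    have e3 : ((2 * c + 2) ^ 2 + c) ^ 2 + c ≠ (2 * c + 2) ^ 2 + c := by
      exact fun h => h3' (congrArg some h)
    have e4 : ((2 * c + 2) ^ 2 + c) ^ 2 + c ≠ 2 * c + 2 := by
      exact fun h => h4' (congrArg some h)
    set y : K := 2 * c + 2 with hy
    set y1 : K := y ^ 2 + c with hy1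
    set y2 : K := y1 ^ 2 + c with hy2
    -- `y2 ^ 2 = y ^ 2`, so `y2 = - y`
    have f1 : (y2 - y) * (y2 + y) = 0 := by
      have : y2 ^ 2 + c = y ^ 2 + c := e1
      linear_combination this
    have f2 : y2 = -y := by
      rcases mul_eq_zero.mp f1 with h | h
      · exact absurd (sub_eq_zero.mp h) e4
      · exact eq_neg_of_add_eq_zero_left h
    -- `y1 + y2 = -1`
    have f3 : (y2 - y1) * (y1 + y2 + 1) = 0 := by
      have a1 : y2 ^ 2 + c = y1 := e1
      have a2 : y2 = y1 ^ 2 + c := hy2
      linear_combination a1 + a2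
    have f4 : y1 + y2 + 1 = 0 := by
      rcases mul_eq_zero.mp f3 with h | h
      · exact absurd (sub_eq_zero.mp h) e3
      · exact h
    have f5 : (c + 1) * (4 * c + 3) = 0 := by
      rw [f2, hy1, hy] at f4
      linear_combination f4
    rcases mul_eq_zero.mp f5 with h | h
    · -- `c = -1`, `y = 0`
      have hc : c = -1 := eq_neg_of_add_eq_zero_left h
      apply e4
      rw [hy2, hy1, hy, hc]
      ring
    · -- `c = -3/4`, `y = 1/2`
      apply e3
      have hc : y1 = -y := by
        rw [hy1, hy]
        linear_combination (c + 2) * h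
      rw [f2, hc]
  · intro h
    have h' : (2 * RatFunc.X + 2 : RatFunc K) = RatFunc.X + 1 := congrArg Prod.fst h
    rw [hpoly, hX1] at h'
    have h'' := RatFunc.algebraMap_injective K h'
    have := congrArg (fun p => Polynomial.coeff p 0) h''
    simp only [Polynomial.coeff_add, Polynomial.coeff_C_mul, Polynomial.coeff_X_zero,
      Polynomial.coeff_C, if_true, mul_zero, zero_add] at this
    have h21 : (2 : K) = 1 := this
    norm_num at h21

end Pool.Agent.Results.MP_13ba09_nt.AnotherExceptional
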